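import Pool.Agent.H2.DG.NotDG

/-!
# A regular Lindelöf `P`-space that is not discretely generated, in a model of ZFC

The statement uses only the definitions of `Pool/Agent/H85/Forcing/Defs.lean` (models of ZFC),
`Pool/Agent/H85/Forcing/OSDefs.lean` (ordered pairs, functions) and
`Pool/Agent/H2/DG/TopDefs.lean` (topological notions relativized to a model).

Proof: the Boolean-valued model over the regular open algebra of a σ-closed partial order, divided
by an ultrafilter. A condition is a countable family of traces on a countable set of coordinates;
a stronger condition may realize, on the old coordinates, only cuts of old traces. The space is the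
set of all cuts of the generic subsets `b ξ` of `K`, with the `G_δ` topology of `2 ^ K`.
-/

namespace Pool.Agent.Results.MP_85dce0_gt.ConsistentExample

open H85.Forcing H2.DG

/-- There is a model `(M, E)` of ZFC which contains a topological space `(X, t)` such that, in
`(M, E)`, the space is `T₁`, regular, Lindelöf and a `P`-space, and it is not discretely
generated. -/
theorem result : ∃ (M : Type 2) (E : M → M → Prop), IsZFC E ∧ ∃ X t : M,
    IsTopology E X t ∧ IsT1 E X t ∧ IsReg E X t ∧ IsPSpace E X t ∧ IsLindelof E X t ∧
      ¬ IsDG E X t :=
  H2.DG.main

end Pool.Agent.Results.MP_85dce0_gt.ConsistentExample
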