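import Mathlib

/-!
# A regular P-space that is not weakly discretely generated, in ZFC

`W` is a well-ordered set of type `ω₁`. A *branch* is a function `b : W → W`, a *node* is a pair
`(k, tr b k)` (the restriction of a branch to the elements below `k`). The space consists of all
branches and one more point. For a function `Φ` which assigns to every node a countable subset of `W`
let `UU Φ` be the set of the branches `b` such that `b k ∉ Φ k (tr b k)` for all `k`. The open sets are
generated by the cones (all branches through a node), the sets `UU Φ`, and the sets `UU Φ` together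
with the additional point.

The additional point is in the closure of the set of all branches. If `D` is a discrete set of
branches and has the additional point in its closure, then, since a node has only countably many
nodes below it, there is one node `s` such that the set `D_s` of those members of `D` which are
isolated by a neighbourhood inside the cone of `s` meets all sets `UU Ψ` (restricted to the cone
of `s`). Applied to the set `UU Φ` which isolates a member `b` of `D_s` this gives a second member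
of `D` in the neighbourhood isolating `b`, a contradiction.
-/

set_option autoImplicit false

namespace Pool.Agent.Results.MP_85dce0_gt.PSpaceInZFC

open Set

/-- A set `D` is discrete if every point of `D` has a neighbourhood meeting `D` only in this point. -/
def IsDiscreteSet {X : Type} [TopologicalSpace X] (D : Set X) : Prop :=
  ∀ d ∈ D, ∃ U : Set X, IsOpen U ∧ U ∩ D = {d}

/-- `X` is weakly discretely generated: every non-closed `A` contains a discrete set `D` whose
closure is not contained in `A`. -/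
def WeaklyDiscretelyGenerated (X : Type) [TopologicalSpace X] : Prop :=
  ∀ A : Set X, ¬ IsClosed A → ∃ D : Set X, D ⊆ A ∧ IsDiscreteSet D ∧ (closure D \ A).Nonempty

/-- `X` is a P-space: every `G_δ` set is open. -/
def IsPSpace (X : Type) [TopologicalSpace X] : Prop := ∀ s : Set X, IsGδ s → IsOpen s

section

variable (W : Type) [LinearOrder W]

/-- countable initial segments, and countable sets have strict upper bounds -/
structure Om : Prop where
  wf : WellFoundedLT W
  seg : ∀ a : W, (Iic a).Countable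
  bd : ∀ S : Set W, S.Countable → ∃ a, ∀ s ∈ S, s < a

variable {W}

/-- the restriction of `b` to the elements below `k` -/
def tr (z : W) (b : W → W) (k : W) : W → W := fun i => if i < k then b i else z

/-- families of sets of forbidden values, indexed by the nodes -/
def Fam (Φ : W → (W → W) → Set W) : Prop := ∀ k f, (Φ k f).Countable

/-- the branches which avoid the family -/
def UU (z : W) (Φ : W → (W → W) → Set W) : Set (W → W) := {b | ∀ k, b k ∉ Φ k (tr z b k)}

/-- the cone of `b` at level `j` -/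
def Cone (b : W → W) (j : W) : Set (W → W) := {b' | ∀ i < j, b' i = b i}

/-- basic condition at a branch -/
def NearB (z : W) (O : Set (Option (W → W))) (b : W → W) (j : W) (Φ : W → (W → W) → Set W) :
    Prop :=
  Fam Φ ∧ b ∈ UU z Φ ∧ ∀ b' ∈ Cone b j, b' ∈ UU z Φ → some b' ∈ O

/-- basic condition at the additional point -/
def NearN (z : W) (O : Set (Option (W → W))) (Φ : W → (W → W) → Set W) : Prop :=
  Fam Φ ∧ ∀ b' ∈ UU z Φ, some b' ∈ O

/-- the open sets -/
def Op (z : W) (O : Set (Option (W → W))) : Prop :=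
  (∀ b, some b ∈ O → ∃ j Φ, NearB z O b j Φ) ∧ (none ∈ O → ∃ Φ, NearN z O Φ)

theorem fam_iUnion {ι : Type} {s : Set ι} (hs : s.Countable) {Φ : ι → W → (W → W) → Set W}
    (h : ∀ i ∈ s, Fam (Φ i)) : Fam (fun k f => ⋃ i ∈ s, Φ i k f) :=
  fun k f => hs.biUnion fun i hi => h i hi k f

theorem mem_UU_iUnion {ι : Type} (z : W) {s : Set ι} {Φ : ι → W → (W → W) → Set W} (b : W → W) :
    b ∈ UU z (fun k f => ⋃ i ∈ s, Φ i k f) ↔ ∀ i ∈ s, b ∈ UU z (Φ i) := by
  unfold UU
  simp only [mem_setOf_eq, mem_iUnion, not_exists]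
  constructor
  · intro h i hi k
    exact h k i hi
  · intro h k i hi
    exact h i hi k

theorem cone_mono {b : W → W} {i j : W} (h : i ≤ j) : Cone b j ⊆ Cone b i :=
  fun _ hb l hl => hb l (lt_of_lt_of_le hl h)

/-- countable intersections of open sets are open -/
theorem op_sInter (hW : Om W) (z : W) (T : Set (Set (Option (W → W)))) (hT : T.Countable)
    (h : ∀ O ∈ T, Op z O) : Op z (⋂₀ T) := by
  classical
  constructor
  · intro b hb
    have h1 : ∀ O : Set (Option (W → W)), ∃ j Φ, O ∈ T → NearB z O b j Φ := by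
      intro O
      by_cases hO : O ∈ T
      · obtain ⟨j, Φ, h2⟩ := (h O hO).1 b (hb O hO)
        exact ⟨j, Φ, fun _ => h2⟩
      · exact ⟨z, fun _ _ => ∅, fun h2 => absurd h2 hO⟩
    choose j Φ hjΦ using h1
    obtain ⟨a, ha⟩ := hW.bd (j '' T) (hT.image j)
    refine ⟨a, fun k f => ⋃ O ∈ T, Φ O k f, fam_iUnion hT fun O hO => (hjΦ O hO).1, ?_, ?_⟩
    · rw [mem_UU_iUnion]
      exact fun O hO => (hjΦ O hO).2.1
    · intro b' hb' hb'' O hO
      rw [mem_UU_iUnion] at hb''
      exact (hjΦ O hO).2.2 b' (cone_mono (ha _ (mem_image_of_mem j hO)).le hb') (hb'' O hO)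
  · intro hb
    have h1 : ∀ O : Set (Option (W → W)), ∃ Φ, O ∈ T → NearN z O Φ := by
      intro O
      by_cases hO : O ∈ T
      · obtain ⟨Φ, h2⟩ := (h O hO).2 (hb O hO)
        exact ⟨Φ, fun _ => h2⟩
      · exact ⟨fun _ _ => ∅, fun h2 => absurd h2 hO⟩
    choose Φ hΦ using h1
    refine ⟨fun k f => ⋃ O ∈ T, Φ O k f, fam_iUnion hT fun O hO => (hΦ O hO).1, ?_⟩
    intro b' hb' O hO
    rw [mem_UU_iUnion] at hb'
    exact (hΦ O hO).2 b' (hb' O hO)

/-- the topology -/
def topo (hW : Om W) (z : W) : TopologicalSpace (Option (W → W)) where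
  IsOpen := Op z
  isOpen_univ := by
    refine ⟨fun b _ => ⟨z, fun _ _ => ∅, ?_, ?_, ?_⟩, fun _ => ⟨fun _ _ => ∅, ?_, ?_⟩⟩
    · exact fun _ _ => countable_empty
    · exact fun _ => notMem_empty _
    · exact fun _ _ _ => mem_univ _
    · exact fun _ _ => countable_empty
    · exact fun _ _ => mem_univ _
  isOpen_inter := by
    intro s t hs ht
    have h1 := op_sInter hW z {s, t} (by simp) (by
      intro O hO
      rcases hO with rfl | hO
      · exact hs
      · rw [mem_singleton_iff] at hO
        rw [hO]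
        exact ht)
    rwa [sInter_pair] at h1
  isOpen_sUnion := by
    intro T hT
    constructor
    · rintro b ⟨O, hO, hb⟩
      obtain ⟨j, Φ, h1, h2, h3⟩ := (hT O hO).1 b hb
      exact ⟨j, Φ, h1, h2, fun b' hb' hb'' => ⟨O, hO, h3 b' hb' hb''⟩⟩
    · rintro ⟨O, hO, hb⟩
      obtain ⟨Φ, h1, h2⟩ := (hT O hO).2 hb
      exact ⟨Φ, h1, fun b' hb' => ⟨O, hO, h2 b' hb'⟩⟩

theorem tr_congr {z : W} {b b' : W → W} {k : W} (h : ∀ i < k, b' i = b i) :
    tr z b' k = tr z b k := by
  funext i
  unfold tr
  by_cases hi : i < k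
  · rw [if_pos hi, if_pos hi, h i hi]
  · rw [if_neg hi, if_neg hi]

theorem tr_tr {z : W} {b : W → W} {i k : W} (h : i ≤ k) : tr z (tr z b k) i = tr z b i := by
  refine tr_congr fun l hl => ?_
  unfold tr
  rw [if_pos (lt_of_lt_of_le hl h)]

theorem tr_eq {z : W} {b b' : W → W} {k : W} (h : tr z b' k = tr z b k) : ∀ i < k, b' i = b i := by
  intro i hi
  have h1 := congrFun h i
  unfold tr at h1
  rwa [if_pos hi, if_pos hi] at h1

/-- a set of branches is open if it contains with a branch a cone around it -/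
theorem op_of_cone (z : W) (O : Set (Option (W → W))) (hO : none ∉ O)
    (h : ∀ b, some b ∈ O → ∃ j, ∀ b' ∈ Cone b j, some b' ∈ O) : Op z O := by
  refine ⟨fun b hb => ?_, fun h1 => absurd h1 hO⟩
  obtain ⟨j, hj⟩ := h b hb
  exact ⟨j, fun _ _ => ∅, fun _ _ => countable_empty, fun _ => notMem_empty _,
    fun b' hb' _ => hj b' hb'⟩

theorem exists_gt (hW : Om W) (a : W) : ∃ b, a < b := by
  obtain ⟨b, hb⟩ := hW.bd {a} (countable_singleton a)
  exact ⟨b, hb a rfl⟩

/-- membership in the complement of `UU Φ` is decided by an initial segment -/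
theorem not_UU (hW : Om W) {z : W} {Φ : W → (W → W) → Set W} {b : W → W} (h : b ∉ UU z Φ) :
    ∃ j, ∀ b' ∈ Cone b j, b' ∉ UU z Φ := by
  unfold UU at h
  rw [mem_setOf_eq] at h
  push Not at h
  obtain ⟨k, hk⟩ := h
  obtain ⟨j, hj⟩ := exists_gt hW k
  refine ⟨j, fun b' hb' hb'' => ?_⟩
  have h1 := hb'' k
  rw [hb' k hj, tr_congr (fun i hi => hb' i (hi.trans hj))] at h1
  exact h1 hk

/-- every `UU Φ` has a member -/
theorem UU_nonempty (hW : Om W) (z : W) (Φ : W → (W → W) → Set W) (hΦ : Fam Φ) :
    (UU z Φ).Nonempty := by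
  classical
  have hwf := hW.wf
  have hex : ∀ k f, ∃ w, w ∉ Φ k f := by
    intro k f
    obtain ⟨a, ha⟩ := hW.bd (Φ k f) (hΦ k f)
    exact ⟨a, fun h => lt_irrefl _ (ha a h)⟩
  choose c hc using hex
  let F : (k : W) → ((i : W) → i < k → W) → W := fun k r =>
    c k (fun i => if h : i < k then r i h else z)
  let b : W → W := WellFounded.fix (wellFounded_lt (α := W)) F
  refine ⟨b, fun k => ?_⟩
  have h1 : b k = c k (tr z b k) := by
    show WellFounded.fix (wellFounded_lt (α := W)) F k = _
    rw [WellFounded.fix_eq]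
    show c k (fun i => if h : i < k then b i else z) = c k (tr z b k)
    congr 1
  rw [h1]
  exact hc k _

theorem t3 (hW : Om W) (z : W) : @T3Space (Option (W → W)) (topo hW z) := by
  letI := topo hW z
  have hop : ∀ O : Set (Option (W → W)), IsOpen O ↔ Op z O := fun _ => Iff.rfl
  have ht1 : T1Space (Option (W → W)) := by
    refine ⟨fun x => ?_⟩
    rw [← isOpen_compl_iff, hop]
    cases x with
    | none =>
      refine op_of_cone z _ (by simp) fun b _ => ⟨z, fun b' _ => by simp⟩
    | some b =>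
      constructor
      · intro b' hb'
        have hne : b' ≠ b := by
          rintro rfl
          exact hb' rfl
        obtain ⟨i, hi⟩ := Function.ne_iff.1 hne
        obtain ⟨j, hj⟩ := exists_gt hW i
        refine ⟨j, fun _ _ => ∅, fun _ _ => countable_empty, fun _ => notMem_empty _, ?_⟩
        intro b'' hb'' _ he
        rw [mem_singleton_iff, Option.some_inj] at he
        rw [he] at hb''
        exact hi (hb'' i hj).symm
      · intro _
        refine ⟨fun k _ => {b k}, fun _ _ => countable_singleton _, ?_⟩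
        intro b' hb' he
        rw [mem_singleton_iff, Option.some_inj] at he
        rw [he] at hb'
        exact hb' z rfl
  have hreg : RegularSpace (Option (W → W)) := by
    refine RegularSpace.of_exists_mem_nhds_isClosed_subset fun x s hs => ?_
    obtain ⟨O, hOs, hO, hxO⟩ := mem_nhds_iff.1 hs
    rw [hop] at hO
    cases x with
    | none =>
      obtain ⟨Φ, hΦ, h1⟩ := hO.2 hxO
      refine ⟨insert none (some '' UU z Φ), ?_, ?_, ?_⟩
      · refine mem_nhds_iff.2 ⟨_, Subset.rfl, ?_, mem_insert _ _⟩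
        rw [hop]
        constructor
        · intro b hb
          have hb' : b ∈ UU z Φ := by
            rcases hb with hb | ⟨b', hb', he⟩
            · exact absurd hb (by simp)
            · rwa [← Option.some_inj.1 he]
          exact ⟨z, Φ, hΦ, hb', fun b' _ h2 => Or.inr ⟨b', h2, rfl⟩⟩
        · intro _
          exact ⟨Φ, hΦ, fun b' h2 => Or.inr ⟨b', h2, rfl⟩⟩
      · rw [← isOpen_compl_iff, hop]
        refine op_of_cone z _ (fun h2 => h2 (mem_insert _ _)) fun b hb => ?_
        have hb' : b ∉ UU z Φ := fun h2 => hb (Or.inr ⟨b, h2, rfl⟩)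
        obtain ⟨j, hj⟩ := not_UU hW hb'
        refine ⟨j, fun b' h2 h3 => ?_⟩
        rcases h3 with h3 | ⟨b'', h3, he⟩
        · exact absurd h3 (by simp)
        · rw [Option.some_inj.1 he] at h3
          exact hj b' h2 h3
      · intro y hy
        rcases hy with rfl | ⟨b', h2, rfl⟩
        · exact hOs hxO
        · exact hOs (h1 b' h2)
    | some b =>
      obtain ⟨j0, Φ, hΦ, hbΦ, h1⟩ := hO.1 b hxO
      obtain ⟨j1, hj1⟩ := exists_gt hW z
      obtain ⟨j, hj⟩ := exists_gt hW (max j0 j1)
      have hj0 : j0 ≤ j := (le_max_left j0 j1).trans hj.le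
      have hzj : z < j := hj1.trans ((le_max_right j0 j1).trans_lt hj)
      refine ⟨some '' (Cone b j ∩ UU z Φ), ?_, ?_, ?_⟩
      · refine mem_nhds_iff.2 ⟨_, Subset.rfl, ?_, ⟨b, ⟨fun _ _ => rfl, hbΦ⟩, rfl⟩⟩
        rw [hop]
        refine ⟨fun b' hb' => ?_, fun h2 => ?_⟩
        · obtain ⟨b'', ⟨h2, h3⟩, he⟩ := hb'
          rw [Option.some_inj.1 he] at h2 h3
          refine ⟨j, Φ, hΦ, h3, fun c hc hcΦ => ⟨c, ⟨fun i hi => ?_, hcΦ⟩, rfl⟩⟩
          rw [hc i hi, h2 i hi]
        · obtain ⟨b'', _, he⟩ := h2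
          exact absurd he (by simp)
      · rw [← isOpen_compl_iff, hop]
        constructor
        · intro b' hb'
          by_cases h2 : b' ∈ Cone b j
          · have h3 : b' ∉ UU z Φ := fun h3 => hb' ⟨b', ⟨h2, h3⟩, rfl⟩
            obtain ⟨l, hl⟩ := not_UU hW h3
            refine ⟨l, fun _ _ => ∅, fun _ _ => countable_empty, fun _ => notMem_empty _, ?_⟩
            rintro c hc _ ⟨c', ⟨_, h4⟩, he⟩
            rw [Option.some_inj.1 he] at h4
            exact hl c hc h4
          · refine ⟨j, fun _ _ => ∅, fun _ _ => countable_empty, fun _ => notMem_empty _, ?_⟩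
            rintro c hc _ ⟨c', ⟨h4, _⟩, he⟩
            rw [Option.some_inj.1 he] at h4
            refine h2 fun i hi => ?_
            rw [← hc i hi, h4 i hi]
        · intro _
          refine ⟨fun k _ => {b k}, fun _ _ => countable_singleton _, ?_⟩
          rintro c hc ⟨c', ⟨h4, _⟩, he⟩
          rw [Option.some_inj.1 he] at h4
          exact hc z (h4 z hzj)
      · rintro y ⟨b', ⟨h2, h3⟩, rfl⟩
        exact hOs (h1 b' (cone_mono hj0 h2) h3)
  exact { toT0Space := inferInstance, toRegularSpace := hreg }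

theorem pspace (hW : Om W) (z : W) : @IsPSpace (Option (W → W)) (topo hW z) := by
  letI := topo hW z
  rintro s ⟨T, hT, hTc, rfl⟩
  exact op_sInter hW z T hTc hT

/-- the key argument -/
theorem no_discrete (hW : Om W) (z : W) (D : Set (W → W))
    (hD : ∀ b ∈ D, ∃ j Φ, Fam Φ ∧ b ∈ UU z Φ ∧ ∀ b' ∈ Cone b j, b' ∈ UU z Φ → b' ∈ D → b' = b) :
    ∃ Φ, Fam Φ ∧ ∀ b ∈ D, b ∉ UU z Φ := by
  classical
  by_contra hcon
  push Not at hcon
  have hD' : ∀ b : W → W, ∃ j Φ, b ∈ D → Fam Φ ∧ b ∈ UU z Φ ∧
      ∀ b' ∈ Cone b j, b' ∈ UU z Φ → b' ∈ D → b' = b := by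
    intro b
    by_cases hb : b ∈ D
    · obtain ⟨j, Φ, h1⟩ := hD b hb
      exact ⟨j, Φ, fun _ => h1⟩
    · exact ⟨z, fun _ _ => ∅, fun h1 => absurd h1 hb⟩
  choose j Φ hjΦ using hD'
  -- a node `s` at which the members of `D` cannot be avoided
  have hs : ∃ s : W × (W → W), ∀ Ψ : W → (W → W) → Set W, Fam Ψ →
      ∃ b ∈ D, (j b, tr z b (j b)) = s ∧ ∀ k, j b ≤ k → b k ∉ Ψ k (tr z b k) := by
    by_contra h1
    push Not at h1
    choose Ψ hΨ hΨ' using h1
    obtain ⟨b, hb, hbU⟩ := hcon (fun k f => ⋃ i ∈ Iic k, Ψ (i, tr z f i) k f) (by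
      intro k f
      exact (hW.seg k).biUnion fun i _ => hΨ (i, tr z f i) k f)
    obtain ⟨k, hk, hbk⟩ := hΨ' (j b, tr z b (j b)) b hb rfl
    refine hbU k ?_
    simp only [mem_iUnion]
    refine ⟨j b, hk, ?_⟩
    rw [tr_tr hk]
    exact hbk
  obtain ⟨s, hs⟩ := hs
  obtain ⟨b, hb, hbs, _⟩ := hs (fun _ _ => ∅) fun _ _ => countable_empty
  obtain ⟨hΦ, hbΦ, hiso⟩ := hjΦ b hb
  obtain ⟨b', hb', hbs', h2⟩ := hs (fun k f => insert (b k) (Φ b k f))
    fun k f => (hΦ k f).insert _
  rw [← hbs, Prod.mk.injEq] at hbs'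
  obtain ⟨hj, htr⟩ := hbs'
  rw [hj] at htr h2
  have hagree := tr_eq htr
  have h3 : b' = b := by
    refine hiso b' hagree ?_ hb'
    intro k
    rcases lt_or_ge k (j b) with hk | hk
    · rw [hagree k hk, tr_congr (fun i hi => hagree i (hi.trans hk))]
      exact hbΦ k
    · exact fun h4 => h2 k hk (mem_insert_of_mem _ h4)
  exact h2 (j b) le_rfl (by rw [h3]; exact mem_insert _ _)

theorem not_wdg (hW : Om W) (z : W) : ¬ @WeaklyDiscretelyGenerated (Option (W → W)) (topo hW z) := by
  letI := topo hW z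
  have hop : ∀ O : Set (Option (W → W)), IsOpen O ↔ Op z O := fun _ => Iff.rfl
  intro hWDG
  obtain ⟨D, hDA, hD, x, hxD, hxA⟩ := hWDG (range some) (by
    intro hcl
    rw [← isOpen_compl_iff, hop] at hcl
    obtain ⟨Φ, hΦ, h1⟩ := hcl.2 (by simp)
    obtain ⟨b, hb⟩ := UU_nonempty hW z Φ hΦ
    exact h1 b hb ⟨b, rfl⟩)
  have hx : x = none := by
    cases x with
    | none => rfl
    | some b => exact absurd ⟨b, rfl⟩ hxA
  rw [hx] at hxD
  obtain ⟨Φ, hΦ, h1⟩ := no_discrete hW z {b | some b ∈ D} (by
    intro b hb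
    obtain ⟨U, hU, hUD⟩ := hD (some b) hb
    have hbU : some b ∈ U := by
      have h2 : some b ∈ U ∩ D := by rw [hUD]; rfl
      exact h2.1
    rw [hop] at hU
    obtain ⟨j, Φ, hΦ, hbΦ, h3⟩ := hU.1 b hbU
    refine ⟨j, Φ, hΦ, hbΦ, fun b' h4 h5 h6 => ?_⟩
    have h7 : some b' ∈ U ∩ D := ⟨h3 b' h4 h5, h6⟩
    rw [hUD] at h7
    exact Option.some_inj.1 h7)
  have hO : IsOpen (insert none (some '' UU z Φ) : Set (Option (W → W))) := by
    rw [hop]
    constructor
    · intro b hb
      have hb' : b ∈ UU z Φ := by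
        rcases hb with hb | ⟨b', hb', he⟩
        · exact absurd hb (by simp)
        · rwa [← Option.some_inj.1 he]
      exact ⟨z, Φ, hΦ, hb', fun b' _ h2 => Or.inr ⟨b', h2, rfl⟩⟩
    · intro _
      exact ⟨Φ, hΦ, fun b' h2 => Or.inr ⟨b', h2, rfl⟩⟩
  obtain ⟨y, hy, hyD⟩ := mem_closure_iff.1 hxD _ hO (mem_insert _ _)
  rcases hy with rfl | ⟨b, hb, rfl⟩
  · obtain ⟨b, hb⟩ := hDA hyD
    exact absurd hb (by simp)
  · exact h1 b hyD hb

end

theorem om_omega1 : Om (Cardinal.aleph 1).ord.ToType := by
  have hseg : ∀ a : (Cardinal.aleph 1).ord.ToType, (Iio a).Countable := by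
    intro a
    have h1 := Cardinal.mk_Iio_toType_ord_lt a
    have h2 : Cardinal.aleph 1 = Order.succ Cardinal.aleph0 := Cardinal.succ_aleph0.symm
    rw [← Cardinal.le_aleph0_iff_set_countable]
    exact Order.lt_succ_iff.1 (h1.trans_eq h2)
  refine ⟨inferInstance, fun a => ?_, fun S hS => ?_⟩
  · rw [← Iio_insert]
    exact (hseg a).insert a
  · by_contra hcon
    push Not at hcon
    have h1 : (univ : Set (Cardinal.aleph 1).ord.ToType) ⊆ ⋃ s ∈ S, Iic s := by
      intro a _
      obtain ⟨s, hs, has⟩ := hcon a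
      exact mem_biUnion hs has
    have h2 : (univ : Set (Cardinal.aleph 1).ord.ToType).Countable := by
      refine (hS.biUnion fun s _ => ?_).mono h1
      rw [← Iio_insert]
      exact (hseg s).insert s
    rw [← Cardinal.le_aleph0_iff_set_countable, Cardinal.mk_univ, Cardinal.mk_ord_toType] at h2
    exact absurd h2 (not_le.2 (by
      rw [← Cardinal.succ_aleph0]
      exact Order.lt_succ _))

/-- **Main result.** There is a regular (T₃) P-space which is not weakly discretely generated. -/
theorem result : ∃ (X : Type) (_ : TopologicalSpace X),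
    T3Space X ∧ IsPSpace X ∧ ¬ WeaklyDiscretelyGenerated X := by
  have hW := om_omega1
  obtain ⟨z, _⟩ := hW.bd ∅ countable_empty
  exact ⟨_, topo hW z, t3 hW z, pspace hW z, not_wdg hW z⟩

end Pool.Agent.Results.MP_85dce0_gt.PSpaceInZFC
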